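import Mathlib

/-!
# Cyclic covers branched along conjugate hyperplanes: definitions

Here `K` is a number field and `L` is an algebraic closure of `K`; the Galois group is the group of
the automorphisms of `L` over `K`.
-/

set_option autoImplicit false

namespace Pool.Agent.NormVar

open NumberField

variable {K L : Type} [Field K] [Field L] [Algebra K L]

open Classical in
/-- The `m`-th power residue symbol of an element `y` of the finite field `F`, with respect to the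
`m`-th root of unity `ζ` of `K` and the reduction map `φ : 𝓞 K → F`: it is `ζ ^ j` if
`y ^ ((|F| - 1) / m) = φ(ζ) ^ j`, `0 ≤ j < m`, and it is `0` if `y = 0`. -/
noncomputable def residueSymbol {F : Type} [Field F] [Fintype F] (m : ℕ) (ζ : 𝓞 K) (φ : 𝓞 K →+* F)
    (y : F) : 𝓞 K :=
  ∑ j : Fin m, if y ^ ((Fintype.card F - 1) / m) = φ ζ ^ (j : ℕ) then ζ ^ (j : ℕ) else 0

/-- The sum of the symbols of `G(x)` over all `x` in `F ^ (N + 1)`. -/
noncomputable def charSum {F : Type} [Field F] [Fintype F] (m : ℕ) (ζ : 𝓞 K) (φ : 𝓞 K →+* F)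
    {N : ℕ} (G : MvPolynomial (Fin (N + 1)) (𝓞 K)) : 𝓞 K :=
  ∑ x : Fin (N + 1) → F, residueSymbol m ζ φ (G.eval₂ φ x)

/-- The form `G` in `N + 1` variables with coefficients in `𝓞 K` is over the ring of algebraic
integers the product of a constant `c ≠ 0`, of `x₀ ^ b` and of `n` linear forms
`L_i = ∑ A_ij x_j` in general position (together with `x₀` if `b > 0`), which are permuted by the
Galois group, and all permutations occur. -/
structure SymForm (L : Type) [Field L] [Algebra K L] (n b : ℕ) {N : ℕ}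
    (G : MvPolynomial (Fin (N + 1)) (𝓞 K)) : Prop where
  forms : ∃ (c : 𝓞 L) (A : Fin n → Fin (N + 1) → 𝓞 L), c ≠ 0 ∧
    G.map (algebraMap (𝓞 K) (𝓞 L)) = MvPolynomial.C c * MvPolynomial.X 0 ^ b *
      ∏ i, ∑ j, MvPolynomial.C (A i j) * MvPolynomial.X j ∧
    (∀ s : Fin (N + 1) ↪ Fin n, (Matrix.of fun i j => A (s i) j).det ≠ 0) ∧
    (0 < b → ∀ s : Fin N ↪ Fin n, (Matrix.of fun i (j : Fin N) => A (s i) j.succ).det ≠ 0) ∧
    (∀ σ : L ≃ₐ[K] L, ∃ π : Equiv.Perm (Fin n), ∀ i j, σ (A i j : L) = A (π i) j) ∧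
    ∀ π : Equiv.Perm (Fin n), ∃ σ : L ≃ₐ[K] L, ∀ i j, σ (A i j : L) = A (π i) j

/-- The traces of the representation `ρ` of the Galois group over `k` are given by the character
sums of `G`: for all prime ideals `𝔓` of the ring of algebraic integers above almost all primes
`q`, all finite fields `F` that contain the residue field of `K` at `𝔓` and all elements `σ` of the
Galois group that induce `x ↦ x ^ |F|` modulo `𝔓`, the trace of `ρ(σ⁻¹)` is `(-1) ^ N` times the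
character sum of `G` over `F ^ (N + 1)`, divided by `|F| - 1`. -/
def HasTraces {k : Type} [Field k] {d : ℕ} (ρ : (L ≃ₐ[K] L) →* Matrix (Fin d) (Fin d) k)
    (ι : K →+* k) (m : ℕ) (ζ : 𝓞 K) {N : ℕ} (G : MvPolynomial (Fin (N + 1)) (𝓞 K)) : Prop :=
  ∃ B : Finset ℕ, ∀ q : ℕ, q.Prime → q ∉ B → ∀ 𝔓 : Ideal (𝓞 L), 𝔓.IsPrime →
    (q : 𝓞 L) ∈ 𝔓 → ∀ (F : Type) [Field F] [Fintype F] (φ : 𝓞 K →+* F),
      (∀ x : 𝓞 K, φ x = 0 ↔ algebraMap (𝓞 K) (𝓞 L) x ∈ 𝔓) →
      ∀ σ : L ≃ₐ[K] L, (∀ x y : 𝓞 L, (y : L) = σ x → y - x ^ Fintype.card F ∈ 𝔓) →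
        ((Fintype.card F : k) - 1) * (ρ σ⁻¹).trace = (-1) ^ N * ι (charSum m ζ φ G : 𝓞 K)

/-- No open subgroup `H` of the Galois group acts trivially on a nonzero subquotient `W₂ / W₁` of
`ρ(j)`, the twist of `ρ` by the `j`-th power of the cyclotomic character. -/
def NoTateClasses {ℓ : ℕ} [Fact ℓ.Prime] {d : ℕ}
    (ρ : (L ≃ₐ[K] L) →* Matrix (Fin d) (Fin d) (PadicAlgCl ℓ)) (j : ℕ) : Prop :=
  ∀ H : Subgroup (L ≃ₐ[K] L), IsOpen (H : Set (L ≃ₐ[K] L)) →
    ∀ W₁ W₂ : Submodule (PadicAlgCl ℓ) (Fin d → PadicAlgCl ℓ), W₁ ≤ W₂ →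
      (∀ σ ∈ H, ∀ x ∈ W₂, algebraMap ℚ_[ℓ] (PadicAlgCl ℓ)
        (algebraMap ℤ_[ℓ] ℚ_[ℓ] (cyclotomicCharacter L ℓ (σ : L ≃+* L))) ^ j •
          (ρ σ).mulVec x - x ∈ W₁) → W₁ = W₂

end Pool.Agent.NormVar
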