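import Pool.Agent.Lib_helper78.NV.Defs
import Pool.Agent.Lib_helper61.TB.CMain
import Pool.Agent.Lib_helper15.DET.FIN

/-!
# Cyclic covers branched along conjugate hyperplanes: the theorem
-/

set_option autoImplicit false

namespace Pool.Agent.NormVar

open NumberField Pool.Agent.TT Pool.Agent.TB Pool.Agent.TF

/-- The representation on the space of vectors. -/
noncomputable def vecRep {k G : Type} [Field k] [Group G] {d : ℕ}
    (ρ : G →* Matrix (Fin d) (Fin d) k) : Representation k G (Fin d → k) :=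
  (Matrix.toLinAlgEquiv' : Matrix (Fin d) (Fin d) k ≃ₐ[k] _).toMonoidHom.comp ρ

theorem vecRep_apply {k G : Type} [Field k] [Group G] {d : ℕ}
    (ρ : G →* Matrix (Fin d) (Fin d) k) (g : G) (x : Fin d → k) :
    vecRep ρ g x = (ρ g).mulVec x := rfl

theorem vecRep_trace {k G : Type} [Field k] [Group G] {d : ℕ}
    (ρ : G →* Matrix (Fin d) (Fin d) k) (g : G) :
    LinearMap.trace k (Fin d → k) (vecRep ρ g) = (ρ g).trace := by
  have : vecRep ρ g = Matrix.toLin' (ρ g) := rfl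
  rw [this, Matrix.trace_toLin'_eq]

theorem main {K : Type} [Field K] [NumberField K] [Algebra K (AlgebraicClosure ℚ)] {N n b : ℕ}
    {G : MvPolynomial (Fin (N + 1)) (𝓞 K)} (hG : NormVar.SymForm (AlgebraicClosure ℚ) n b G)
    {p a : ℕ} [Fact p.Prime] (hp2 : p ≠ 2) (ha : a ≠ 0) {ζ : 𝓞 K}
    (hζ : IsPrimitiveRoot ζ (p ^ a)) (hnb : p ^ a ∣ n + b) (hcase : b = 0 ∨ ¬ p ∣ n)
    (hN : 1 ≤ N) (hn : 2 * N ≤ n) {d : ℕ}
    (hd : d = if b = 0 then (n - 2).choose N else (n - 1).choose N)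
    (R : (AlgebraicClosure ℚ ≃ₐ[K] AlgebraicClosure ℚ) →* Matrix (Fin d) (Fin d) ℂ_[p])
    (hR : Continuous R) (ip : K →+* ℂ_[p]) (hRT : NormVar.HasTraces R ip (p ^ a) ζ G)
    {j : ℕ} (hj : 2 * j ≤ N) {ℓ : ℕ} [Fact ℓ.Prime] {e : ℕ}
    (ρ : (AlgebraicClosure ℚ ≃ₐ[K] AlgebraicClosure ℚ) →* Matrix (Fin e) (Fin e) (PadicAlgCl ℓ))
    (il : K →+* PadicAlgCl ℓ) (hρ : NormVar.HasTraces ρ il (p ^ a) ζ G) :
    NoTateClasses ρ j := by
  have hp3 : 3 ≤ p := by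
    have h2 := (Fact.out : p.Prime).two_le
    omega
  have hm : 2 < p ^ a := by
    calc 2 < p := by omega
      _ = p ^ 1 := (pow_one p).symm
      _ ≤ p ^ a := Nat.pow_le_pow_right (by omega) (by omega)
  obtain ⟨c, A, hc, hGm, hgen, hgen0, hperm, hfull⟩ := hG.forms
  let D : TF.SymForm K N n b :=
    { G := G, c := c, c_ne := hc, L := A, map_G := hGm, general := hgen, general_zero := hgen0,
      perm := hperm, full := hfull }
  have hT : TF.HasTraces (fun σ => (R σ).trace) ip (p ^ a) ζ D.G := hRT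
  have hT' : TF.HasTraces (fun σ => LinearMap.trace (PadicAlgCl ℓ) (Fin e → PadicAlgCl ℓ)
      (vecRep ρ σ)) il (p ^ a) ζ D.G := by
    obtain ⟨B, hB⟩ := hρ
    refine ⟨B, fun q hq hqB 𝔓 h𝔓 hq𝔓 F _ _ φ hφ σ hσ => ?_⟩
    have h1 := hB q hq hqB 𝔓 h𝔓 hq𝔓 F φ hφ σ hσ
    rw [← vecRep_trace] at h1
    exact h1
  intro H hH W₁ W₂ hW hTate
  exact cmain D hp2 ha hζ hnb hcase hN hn ip hd R hR hT
    (Pool.Agent.DET.det_main' D hm ha hζ hnb hcase hN hn ip hd R hT hj)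
    il (vecRep ρ) hT' H hH W₁ W₂ hW hTate

end Pool.Agent.NormVar
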